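import Pool.Agent.J6H38.DX.Stm2

/-!
# Module ALLU: from the origin to all vertices
-/

set_option autoImplicit false

open MeasureTheory ProbabilityTheory Filter Topology
open scoped ENNReal

namespace Pool.Agent.J6H23.DX

open Pool.Agent.J6H99.NX Pool.Agent.J6H9.NX Pool.Agent.J6H38.DX

variable {e : ℕ}

lemma ball_finite (K : ℤ) : {x : V e | n1 x ≤ K}.Finite := by
  refine (Set.finite_Icc (fun _ => -K : V e) (fun _ => K)).subset fun x hx => ?_
  have h : ∀ i, |x i| ≤ K := fun i => (coord_le_n1 x i).trans hx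
  exact ⟨fun i => (abs_le.1 (h i)).1, fun i => (abs_le.1 (h i)).2⟩

lemma n1_tendsto_atTop {x : ℕ → V e} (hx : Function.Injective x) :
    Tendsto (fun k => n1 (x k)) atTop atTop := by
  rw [tendsto_atTop]
  intro b
  have h1 : (x ⁻¹' {y : V e | n1 y ≤ b}).Finite := (ball_finite b).preimage hx.injOn
  have h2 := h1.compl_mem_cofinite
  rw [Nat.cofinite_eq_atTop] at h2
  filter_upwards [h2] with k hk
  have : ¬ n1 (x k) ≤ b := hk
  omega

variable {q : Par} {F : Measure ℝ} [IsProbabilityMeasure F] [MB q F]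

lemma rayU_sub (u : V e) {ω : Om e} {x : ℕ → V e} (h : RayU q ω u x) :
    RayU q (act (tr u) ω) 0 (fun k => x k - u) := by
  obtain ⟨h0, hadj, hinj, hT⟩ := h
  refine ⟨by simp [h0], fun n => ?_, fun m n hmn => hinj (sub_left_injective hmn), fun m n hmn => ?_⟩
  · show n1 (x n - u - (x (n + 1) - u)) = 1
    rw [sub_sub_sub_cancel_right]
    exact hadj n
  · rw [T_act, tr_apply, tr_apply, sub_add_cancel, sub_add_cancel, hT m n hmn]
    refine Finset.sum_congr rfl fun k _ => ?_
    show q.w (ω s(x k, x (k + 1))) = q.w (ω (Sym2.map (tr u) s(x k - u, x (k + 1) - u)))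
    rw [Sym2.map_mk]
    simp

lemma rayU_add (u : V e) {ω : Om e} {x : ℕ → V e} (h : RayU q (act (tr u) ω) 0 x) :
    RayU q ω u (fun k => x k + u) := by
  obtain ⟨h0, hadj, hinj, hT⟩ := h
  refine ⟨by simp [h0], fun n => ?_, fun m n hmn => hinj (add_left_injective u hmn),
    fun m n hmn => ?_⟩
  · show n1 (x n + u - (x (n + 1) + u)) = 1
    rw [add_sub_add_right_eq_sub]
    exact hadj n
  · have h1 := hT m n hmn
    rw [T_act, tr_apply, tr_apply] at h1
    rw [h1]
    refine Finset.sum_congr rfl fun k _ => ?_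
    show q.w (ω (Sym2.map (tr u) s(x k, x (k + 1)))) = _
    rw [Sym2.map_mk]
    simp

lemma dir_add {c : E e} {x : ℕ → V e} (hinj : Function.Injective x) (h : Dir q F c x) (v : V e) :
    Dir q F c (fun k => x k + v) := by
  intro η hη
  have h1 := h (η / 2) (by positivity)
  have h2 := n1_tendsto_atTop hinj
  have h3 : ∀ᶠ k in atTop, ⌈(q.b + nr c + η) * n1 v / (η / 2)⌉ ≤ n1 (x k) :=
    h2.eventually_ge_atTop _
  filter_upwards [h1, h3] with k hk1 hk3
  have h4 : (q.b + nr c + η) * n1 v / (η / 2) ≤ n1 (x k) := by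
    refine (Int.le_ceil _).trans ?_
    exact_mod_cast hk3
  rw [div_le_iff₀ (by positivity)] at h4
  have h5 : g q F (x k + v) ≤ g q F (x k) + g q F v := g_add_le q F _ _
  have h6 : g q F v ≤ q.b * n1 v := g_le q F v
  have h7 : lf c (x k + v) = lf c (x k) + lf c v := lf_add _ _ _
  have h8 := (abs_le.1 (abs_lf_le c v)).1
  have h9 : (n1 (x k) : ℝ) ≤ n1 (x k + v) + n1 v := by
    have := n1_add_le (x k + v) (-v)
    rw [add_neg_cancel_right, n1_neg] at this
    exact_mod_cast this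
  have h10 : η * (n1 (x k) : ℝ) ≤ η * (n1 (x k + v) + n1 v) :=
    mul_le_mul_of_nonneg_left h9 hη.le
  show g q F (x k + v) ≤ lf c (x k + v) + η * n1 (x k + v)
  rw [h7]
  nlinarith

lemma dirs_of_act (u : V e) {ω : Om e} (h : Dirs q F (act (tr u) ω) (0 : V e)) :
    Dirs q F ω u := by
  refine ⟨fun x hx => ?_, fun c y hy hs => ?_⟩
  · obtain ⟨c, y, hy, hs, hd⟩ := h.1 _ (rayU_sub u hx)
    refine ⟨c, y, hy, hs, ?_⟩
    have h1 := dir_add (rayU_sub u hx).2.2.1 hd u
    simpa using h1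
  · obtain ⟨x, hx, hd⟩ := h.2 c y hy hs
    exact ⟨_, rayU_add u hx, dir_add hx.2.2.1 hd u⟩

theorem allu : AllUT := by
  intro e q F _ _ h
  rw [ae_all_iff]
  intro u
  have h1 := (act_mp (e := e) F (tr u)).quasiMeasurePreserving.ae h
  filter_upwards [h1] with ω hω
  exact dirs_of_act u hω

end Pool.Agent.J6H23.DX
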