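import Pool.Agent.J6H38.DX.Stm2

/-!
# Module NONDEG: continuous laws are nondegenerate
-/

set_option autoImplicit false

open MeasureTheory ProbabilityTheory Filter Topology
open scoped ENNReal

namespace Pool.Agent.J6H23.DX

open Pool.Agent.J6H99.NX Pool.Agent.J6H9.NX Pool.Agent.J6H38.DX

theorem nondeg : NonDegT := by
  intro q F _ h
  have hm := q.measurable_w
  -- two points with positive probability
  set A : Set ℝ := {t | 0 < F {s | q.w s ≤ t}} with hA
  have hAne : A.Nonempty := by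
    by_contra hne
    have h0 : ∀ n : ℕ, F {s | q.w s ≤ n} = 0 := fun n => by
      by_contra h
      exact hne ⟨n, pos_iff_ne_zero.2 h⟩
    have h1 : (Set.univ : Set ℝ) ⊆ ⋃ n : ℕ, {s | q.w s ≤ n} := fun s _ => by
      obtain ⟨n, hn⟩ := exists_nat_ge (q.w s)
      exact Set.mem_iUnion.2 ⟨n, hn⟩
    have h2 : F Set.univ = 0 := measure_mono_null h1 (measure_iUnion_null h0)
    rw [measure_univ] at h2
    exact one_ne_zero h2
  have hAbdd : BddBelow A := by
    refine ⟨0, fun t ht => ?_⟩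
    by_contra hlt
    push Not at hlt
    have : {s : ℝ | q.w s ≤ t} = ∅ := by
      ext s
      simp only [Set.mem_ofPred_eq, Set.mem_empty_iff_false, iff_false, not_le]
      exact hlt.trans_le (q.w_nonneg s)
    have h1 : 0 < F {s | q.w s ≤ t} := ht
    rw [this] at h1
    simp at h1
  set t0 := sInf A with ht0
  -- below `t0` there is no mass
  have hlow : F {s | q.w s < t0} = 0 := by
    have h1 : {s : ℝ | q.w s < t0} ⊆ ⋃ n : ℕ, {s | q.w s ≤ t0 - 1 / ((n : ℝ) + 1)} := by
      intro s hs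
      have hs' : (0 : ℝ) < t0 - q.w s := sub_pos.2 hs
      obtain ⟨n, hn⟩ := exists_nat_one_div_lt hs'
      exact Set.mem_iUnion.2 ⟨n, by show q.w s ≤ _; linarith⟩
    refine measure_mono_null h1 (measure_iUnion_null fun n => ?_)
    by_contra hne
    have h2 : t0 - 1 / ((n : ℝ) + 1) ∈ A := pos_iff_ne_zero.2 hne
    have h3 := csInf_le hAbdd h2
    have h4 : (0 : ℝ) < 1 / ((n : ℝ) + 1) := by positivity
    linarith
  have hle : F {s | q.w s ≤ t0} = 0 := by
    have h1 : {s : ℝ | q.w s ≤ t0} = {s | q.w s < t0} ∪ {s | q.w s = t0} := by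
      ext s; simp [le_iff_lt_or_eq]
    rw [h1]
    exact measure_union_null hlow (h t0)
  have hgt : F {s | t0 < q.w s} = 1 := by
    have h1 : {s : ℝ | t0 < q.w s} = {s | q.w s ≤ t0}ᶜ := by ext s; simp
    rw [h1, prob_compl_eq_one_iff (measurableSet_le hm measurable_const)]
    exact hle
  -- a point above which there is mass
  obtain ⟨b', hb', hb'0⟩ : ∃ b' : ℝ, t0 < b' ∧ 0 < F {t | b' ≤ q.w t} := by
    by_contra hne
    push Not at hne
    have h1 : {s : ℝ | t0 < q.w s} ⊆ ⋃ n : ℕ, {s | t0 + 1 / ((n : ℝ) + 1) ≤ q.w s} := by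
      intro s hs
      have hs' : (0 : ℝ) < q.w s - t0 := sub_pos.2 hs
      obtain ⟨n, hn⟩ := exists_nat_one_div_lt hs'
      exact Set.mem_iUnion.2 ⟨n, by show _ ≤ q.w s; linarith⟩
    have h2 : F {s | t0 < q.w s} = 0 := measure_mono_null h1 (measure_iUnion_null fun n =>
      nonpos_iff_eq_zero.1 (hne _ (by have : (0 : ℝ) < 1 / ((n : ℝ) + 1) := by positivity
                                      linarith)))
    rw [hgt] at h2
    exact one_ne_zero h2
  obtain ⟨a', ha', ha'b⟩ := exists_lt_of_csInf_lt hAne hb'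
  refine ⟨⟨a', b', ha'b, ha', hb'0⟩, ?_⟩
  have h1 : {t : ℝ | q.w t ≤ 0} = {s | q.w s = 0} := by
    ext s
    simp only [Set.mem_ofPred_eq]
    exact ⟨fun hs => le_antisymm hs (q.w_nonneg s), fun hs => hs.le⟩
  rw [h1]
  exact h 0

end Pool.Agent.J6H23.DX
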